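import Pool.Agent.H380.AG.Stm

/-!
# Angles in sets of large dimension: S_LARGE
-/

set_option autoImplicit false

open MeasureTheory Metric Set Filter Topology
open scoped ENNReal RealInnerProductSpace

namespace Pool.Agent.H23.AG

open Pool.Agent.W778.AG Pool.Agent.H380.AG

theorem meas_dir {n : ℕ} : Measurable (dir : En n → En n) := by
  unfold dir
  exact (measurable_norm.inv).smul measurable_id

theorem norm_dir {n : ℕ} {v : En n} (hv : v ≠ 0) : ‖dir v‖ = 1 := by
  unfold dir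
  rw [norm_smul, norm_inv, norm_norm, inv_mul_cancel₀ (norm_ne_zero_iff.2 hv)]

theorem inner_dir {n : ℕ} (v w : En n) : ⟪dir v, dir w⟫ = ⟪v, w⟫ / (‖v‖ * ‖w‖) := by
  unfold dir
  rw [real_inner_smul_left, real_inner_smul_right]
  rw [div_eq_mul_inv, mul_inv]
  ring

theorem meas_pk (n : ℕ) (r : ℝ) (v : En n) : Measurable (fun u : En n => pk n r ⟪v, u⟫) := by
  unfold pk
  refine Measurable.div measurable_const (Measurable.pow_const ?_ n)
  refine (Real.continuous_sqrt.comp ?_).measurable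
  fun_prop

theorem gam_nonneg (n : ℕ) {κ R β r : ℝ} (hR : 0 < R) (hβ : 0 < β) (hr : r < 1) :
    0 ≤ Gam n κ R β r := by
  unfold Gam
  have h1 : 0 < β * R * (1 - r) := mul_pos (mul_pos hβ hR) (by linarith)
  exact mul_nonneg (pow_nonneg (by linarith) _) (Real.rpow_nonneg (by positivity) _)

theorem pg_pos (h5 : S_POS) (h6 : S_PAR) {n k : ℕ} (hn : 3 ≤ n) {t : ℝ} (ht : t ≠ 0)
    (h1 : |t| ≤ 1) (hk : (k : ℝ) ≤ ((n : ℝ) - 2) * t ^ 2 / 4) (he : Even k) : 0 < Pg n k t := by
  rcases lt_or_gt_of_ne ht with h | h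
  · have h2 := h6 n k (-t)
    rw [neg_neg, he.neg_one_pow, one_mul] at h2
    rw [h2]
    refine h5 n k hn (-t) (by linarith) ?_ (by rw [neg_sq]; exact hk)
    exact (neg_le_abs t).trans h1
  · exact h5 n k hn t h ((le_abs_self t).trans h1) hk

theorem t_LARGE (h1 : S_CONST) (h2 : S_CHAIN) (h3 : S_A) (h4 : S_FROST) (h5 : S_POS)
    (h6 : S_PAR) : S_LARGE := by
  intro α hα0 hαπ hcos
  obtain ⟨κ, R, β, hκ0, hκ1, hR0, hR1, hβ0, hβ1, n₀, hn₀⟩ := h1 α hα0 hαπ hcos
  refine ⟨κ, hκ0, hκ1, n₀, ?_⟩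
  intro n hn K hK hdim
  obtain ⟨hn3, hRR, hI1, q, hq, hI2, hLE⟩ := hn₀ n hn
  have hnpos : (0 : ℝ) < n := by
    have : (3 : ℝ) ≤ n := by exact_mod_cast hn3
    linarith
  have hs : 0 < (1 - κ) * n := mul_pos (by linarith) hnpos
  obtain ⟨ν, C, hν, hνK, hC, hball⟩ := h4 n K hK _ hs hdim
  set η' : ℝ := max (LE n (fun φ => Gam n κ R β (wf α φ))) 1 with hη'
  set η : ℝ := max (LE n (fun φ => wf α φ ^ q * Gam n κ R β (Real.sqrt (wf α φ)))) 0 with hη
  have hη'1 : 1 ≤ η' := le_max_right _ _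
  have hη0 : 0 ≤ η := le_max_right _ _
  have hRn : 0 < (1 + R) ^ n := pow_pos (by linarith) n
  have hη4 : η * (4 * (1 + R) ^ n) ≤ 1 / 2 := by
    rw [hη]
    rcases le_total (LE n (fun φ => wf α φ ^ q * Gam n κ R β (Real.sqrt (wf α φ)))) 0 with h | h
    · rw [max_eq_right h, zero_mul]; norm_num
    · rw [max_eq_left h]; exact hLE
  obtain ⟨J, hJ⟩ := exists_nat_gt (8 * (η' * (1 + R) ^ n) + 6)
  have hprod : 0 < η' * (1 + R) ^ n := mul_pos (by linarith) hRn
  have hJ6 : (6 : ℝ) < J := by linarith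
  set τ : ℝ := (η' + J * η) / 2 with hτ
  have hτ0 : 0 < τ := by
    have : 0 ≤ (J : ℝ) * η := mul_nonneg (by linarith) hη0
    rw [hτ]; linarith
  obtain ⟨y, ω, a, D, hyK, -, hW, hineq⟩ := h2 n q α κ R β τ C 1 ν K hn3 hκ0 hκ1 hR0 hR1 hβ0 hβ1
    hτ0 hC one_pos hRR hν hK hνK hball J
  -- the final numerical inequality
  have hnum : (J : ℝ) * (τ * (4 * (1 + R) ^ n) + 1) < (J : ℝ) * (J - 1) / 2 := by
    have e1 : τ * (4 * (1 + R) ^ n) = 2 * (η' * (1 + R) ^ n) + J * (η * (4 * (1 + R) ^ n)) / 2 := by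
      rw [hτ]; ring
    have e2 : (J : ℝ) * (η * (4 * (1 + R) ^ n)) ≤ J * (1 / 2) :=
      mul_le_mul_of_nonneg_left hη4 (by linarith)
    have e3 : τ * (4 * (1 + R) ^ n) + 1 < (J - 1) / 2 := by
      rw [e1]; linarith
    have e4 := mul_lt_mul_of_pos_left e3 (show (0 : ℝ) < J by linarith)
    linarith
  -- measures
  have hmd : Measurable (fun x : En n => dir (x - y)) :=
    meas_dir.comp (measurable_id.sub_const y)
  have hne : ∀ i, ∀ x : En n, x ∉ ball y (a i) → x - y ≠ 0 := by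
    intro i x hx h0
    apply hx
    rw [sub_eq_zero.1 h0]
    exact mem_ball_self (hW i).2.2.1
  have hcont : ∀ i, ContinuousOn (fun x : En n => dir (x - y)) (K \ ball y (a i)) := by
    intro i
    have c1 : Continuous (fun x : En n => ‖x - y‖) := by fun_prop
    have c2 : Continuous (fun x : En n => x - y) := by fun_prop
    exact (c1.continuousOn.inv₀ fun x hx => norm_ne_zero_iff.2 (hne i x hx.2)).smul
      c2.continuousOn
  have hFc : ∀ i, IsCompact ((fun x : En n => dir (x - y)) '' (K \ ball y (a i))) := fun i =>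
    (hK.diff isOpen_ball).image_of_continuousOn (hcont i)
  have hangle := h3 n q J α (Gam n κ R β) η' η (fun i => (ω i).map (fun x => dir (x - y))) D
    (fun i => (fun x : En n => dir (x - y)) '' (K \ ball y (a i))) hn3 hα0 hαπ hcos
    (fun k hk he => (pg_pos h5 h6 hn3 hcos (Real.abs_cos_le_one α) (by
      have : (k : ℝ) ≤ 2 * q := by exact_mod_cast hk.le
      linarith) he).le)
    (fun r hr => gam_nonneg n hR0 hβ0 hr.2) hI1 hI2 (le_max_left _ _) (le_max_left _ _)
    (fun i => by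
      obtain ⟨hp, hac, ha, hb, hD, hg⟩ := hW i
      refine ⟨Measure.isProbabilityMeasure_map hmd.aemeasurable, ?_⟩
      rw [Measure.map_apply hmd isClosed_sphere.measurableSet.compl]
      refine measure_mono_null ?_ hb
      intro x hx
      by_contra hxb
      apply hx
      rw [mem_sphere_zero_iff_norm]
      exact norm_dir (hne i x hxb))
    (fun i => (hW i).2.2.2.2.1)
    (fun i r hr v hv => by
      obtain ⟨hp, hac, ha, hb, hD, hg⟩ := hW i
      rw [integral_map hmd.aemeasurable (meas_pk n r v).aestronglyMeasurable]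
      exact hg y (by rw [dist_self]; linarith) r hr v hv)
    hFc
    (fun i => by
      rintro _ ⟨x, hx, rfl⟩
      rw [mem_sphere_zero_iff_norm]
      exact norm_dir (hne i x hx.2))
    (fun i => by
      obtain ⟨hp, hac, ha, hb, hD, hg⟩ := hW i
      rw [Measure.map_apply hmd (hFc i).isClosed.measurableSet.compl]
      refine measure_mono_null (t := Kᶜ ∪ ball y (a i)) ?_ (measure_union_null (hac hνK) hb)
      intro x hx
      by_contra hxn
      apply hx
      rw [mem_union, not_or] at hxn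
      exact ⟨x, ⟨not_not.1 hxn.1, hxn.2⟩, rfl⟩)
    (lt_of_le_of_lt hineq hnum)
  obtain ⟨i, j, -, _, ⟨x, ⟨hxK, hx⟩, rfl⟩, _, ⟨z, ⟨hzK, hz⟩, rfl⟩, hxz⟩ := hangle
  have hx0 := hne i x hx
  have hz0 := hne j z hz
  have hang : EuclideanGeometry.angle x y z = α := by
    unfold EuclideanGeometry.angle InnerProductGeometry.angle
    rw [vsub_eq_sub, vsub_eq_sub, ← inner_dir]
    rw [hxz]
    exact Real.arccos_cos hα0.le hαπ.le
  refine ⟨x, hxK, y, hyK, z, hzK, sub_ne_zero.1 hx0, (sub_ne_zero.1 hz0).symm, ?_, hang⟩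
  rintro rfl
  rw [EuclideanGeometry.angle_self_of_ne (sub_ne_zero.1 hx0)] at hang
  exact hα0.ne hang

end Pool.Agent.H23.AG

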